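import Pool.Agent.Helper32.CL.St3

/-!
# Project CL (MP_b2fa09_gt), module GA: pointwise facts on `g₁`, at one time
-/

set_option autoImplicit false

namespace Pool.Agent.Helper92.CL

open Helper32.CL Helper35.PI Helper35.PI2
open scoped ContDiff Manifold Topology ENNReal BigOperators
open MeasureTheory Set Filter

/-- a space-time continuous function is continuous at each fixed time -/
theorem CST.slice {M : Type} [TopologicalSpace M] {V : Type} [TopologicalSpace V] {g : M → ℝ → V}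
    (h : CST g) {t : ℝ} (ht : t < 0) : Continuous fun q => g q t :=
  ContinuousOn.comp_continuous (f := fun q : M => (q, t)) h
    (continuous_id.prodMk continuous_const) fun _ => ⟨trivial, ht⟩

/-- the coefficient function `|W|²` -/
abbrev cW : Co := cφ (fun p => p.2.2.2)

theorem cW_smooth : cW.Smooth where
  sφ := by
    show ContDiff ℝ ∞ fun p : ℝ × ℝ × ℝ × ℝ => p.2.2.2
    exact contDiff_snd.comp (contDiff_snd.comp contDiff_snd)
  s₁ := contDiff_const
  s₂ := contDiff_const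
  s₃ := contDiff_const

theorem fderiv_cW (y h : ℝ × ℝ × ℝ × ℝ) : fderiv ℝ cW.φ y h = h.2.2.2 := by
  have : cW.φ = fun p : ℝ × ℝ × ℝ × ℝ =>
      ((ContinuousLinearMap.snd ℝ ℝ ℝ).comp ((ContinuousLinearMap.snd ℝ ℝ (ℝ × ℝ)).comp
        (ContinuousLinearMap.snd ℝ ℝ (ℝ × ℝ × ℝ)))) p := rfl
  rw [this, ContinuousLinearMap.fderiv]
  rfl

section

variable {n N : ℕ}

theorem hph_cW (l : ℝ) (A : Fin n → Fin n → EE N) (T : Fin n → Fin n → Fin n → EE N)
    (ν : EE N) (v : Fin n → ℝ) : hph l cW A T ν v = hW l A T ν v := by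
  unfold hph
  rw [fderiv_cW]
  have h2 : ∀ k, fderiv ℝ (fun y => fderiv ℝ cW.φ y (g4 l A T ν v k)) (J4 l A ν) (g4 l A T ν v k) = 0 := by
    intro k
    have : (fun y => fderiv ℝ cW.φ y (g4 l A T ν v k)) = fun _ => (g4 l A T ν v k).2.2.2 := by
      funext y
      exact fderiv_cW y _
    rw [this]
    simp
  simp only [h2, Finset.sum_const_zero, sub_zero]
  rfl

theorem gph_cW (l : ℝ) (A : Fin n → Fin n → EE N) (T : Fin n → Fin n → Fin n → EE N)
    (ν : EE N) (v : Fin n → ℝ) (k : Fin n) : gph l cW A T ν v k = gW l A T ν v k := by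
  unfold gph
  rw [fderiv_cW]
  rfl

theorem Va_zero (c : Co) (A : Fin n → Fin n → EE N) (v : Fin n → ℝ) (k : Fin n) :
    Va 0 c A v k = 0 := by
  unfold Va
  rw [zero_mul]

theorem dvA_cW (l : ℝ) (A : Fin n → Fin n → EE N) (T : Fin n → Fin n → Fin n → EE N)
    (ν : EE N) (v : Fin n → ℝ) : dvA 0 l cW A T ν v = -hW l A T ν v := by
  unfold dvA dVa
  rw [hph_cW]
  ring

end

theorem hGA (hMD : StMD) (hML : StML) (hSQ : StSQ) (hCN : Pool.Agent.Helper35.CL.StCN) : StGA := by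
  intro N M _ _ _ F hF t ht
  obtain ⟨h1, hdv, -, hwv, -, hder, -, -⟩ := hML 2 N M F hF 0 (-2 * t) cW cW_smooth
  obtain ⟨hW1, hW2, -, hW3, hW4⟩ := h1 t ht
  obtain ⟨-, hHc, hAc, -⟩ := hCN N M F hF
  have hwvc : Continuous fun q => wvF 2 (-2 * t) F q t := CST.slice hwv ht
  have hwc : Continuous fun q => wF F q t := hwvc.norm.pow 2
  have hdvc : Continuous fun q => dvg (n := 2) F (WFd 2 0 (-2 * t) cW F t) q t := CST.slice hdv ht
  have hderc : Continuous fun q => deriv (fun s => ‖wvF 2 (-2 * t) F q s‖ ^ 2) t := CST.slice hder ht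
  have hAc' : Continuous fun q => AA (n := 2) F q t := CST.slice hAc ht
  have hHc' : Continuous fun q => HH (n := 2) F q t := CST.slice hHc ht
  have hg1 : Continuous fun q => g1F F q t := by
    unfold g1F
    exact continuous_const.mul (((continuous_const.mul (hAc'.mul hwc)).add
      (continuous_const.mul (hHc'.inner hwvc))).sub (hderc.sub hdvc))
  refine ⟨hg1, hwc, hW3, ?_, hW1, hW2⟩
  intro q
  obtain ⟨A, T, ν, v, -, -, hXX, hHH, -, hWl, -, -, -, hlast⟩ := hMD 2 N M F hF q t ht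
  obtain ⟨hn, hd⟩ := hlast 0 (-2 * t) cW cW_smooth
  have hexp : Real.exp (-(0 * ‖F q t‖ ^ 2 / 2)) = 1 := by simp
  rw [hexp] at hn hd
  rw [one_pow, one_mul] at hn
  rw [one_mul, dvA_cW] at hd
  simp only [gph_cW, Va_zero, add_zero] at hn
  have hw : wF F q t = ‖Wl (-2 * t) A ν‖ ^ 2 := by
    unfold wF
    rw [hWl]
  have hsq := hSQ.1 2 N A (Wl (-2 * t) A ν)
  -- the value of `g₁`
  have hg : g1F F q t = (∑ k, ‖DW (-2 * t) A T v k‖ ^ 2) + (XX A * ‖Wl (-2 * t) A ν‖ ^ 2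
      - ∑ i, ∑ j, (inner ℝ (A i j) (Wl (-2 * t) A ν) : ℝ) ^ 2) := by
    unfold g1F
    have hd' : dvg (n := 2) F (WFd 2 0 (-2 * t) (cφ (fun p => p.2.2.2)) F t) q t
        = deriv (fun s => ‖wvF 2 (-2 * t) F q s‖ ^ 2) t + -hW (-2 * t) A T ν v := hd
    rw [hd', hXX, hHH, hw, hWl]
    unfold hW
    ring
  have hDW : (∑ k, ‖DW (-2 * t) A T v k‖ ^ 2) ≤ g1F F q t := by
    rw [hg]
    linarith
  have hDW0 : 0 ≤ ∑ k, ‖DW (-2 * t) A T v k‖ ^ 2 := Finset.sum_nonneg fun k _ => sq_nonneg _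
  refine ⟨hDW0.trans hDW, ?_⟩
  have hgd : gdM 2 F t (fun q => wF F q t) q = WFd 2 0 (-2 * t) cW F t q := (hW4 q).symm
  rw [hgd, hn]
  have hw0 : 0 ≤ wF F q t := by rw [hw]; exact sq_nonneg _
  calc ∑ k, gW (-2 * t) A T ν v k ^ 2
      ≤ ∑ k, 4 * (wF F q t * ‖DW (-2 * t) A T v k‖ ^ 2) := by
        refine Finset.sum_le_sum fun k _ => ?_
        unfold gW
        rw [hw]
        have h1 := real_inner_mul_inner_self_le (Wl (-2 * t) A ν) (DW (-2 * t) A T v k)
        rw [real_inner_self_eq_norm_sq, real_inner_self_eq_norm_sq] at h1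
        nlinarith
    _ = 4 * (wF F q t * ∑ k, ‖DW (-2 * t) A T v k‖ ^ 2) := by
        rw [← Finset.mul_sum, ← Finset.mul_sum]
    _ ≤ 4 * (wF F q t * g1F F q t) := by
        have := mul_le_mul_of_nonneg_left hDW hw0
        linarith

end Pool.Agent.Helper92.CL
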