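import Pool.Agent.Helper26.CL.St
import Pool.Agent.Helper84.LE.BGR

/-! # Project CM (MP_65faa7), module GLs: support of the coefficients in a finite graph -/

set_option autoImplicit false

open scoped BigOperators ENNReal Topology
open Pool.LE Pool.NL Filter

namespace Pool.CN

namespace GLsM

/-- the coefficient of `X ^ m` in the two-point function vanishes outside the box of radius `m` -/
theorem GG_coeff_zero (hW : StWalkBox) (d : ℕ) (E : Finset (Sym2 (Zd d))) (p : ℝ) (m : ℕ)
    (v x : Zd d) (hE : (E : Set (Sym2 (Zd d))) ⊆ latE d) (hx : x - v ∉ bx d m) :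
    (GG E p v x).coeff m = 0 := by
  unfold GG Ex
  rw [Polynomial.finsetSum_coeff]
  refine Finset.sum_eq_zero fun ω hω => ?_
  rw [Polynomial.coeff_smul]
  have hsub : (ω : Set (Sym2 (Zd d))) ⊆ latE d :=
    fun e he => hE (Finset.mem_powerset.1 hω he)
  have h0 : (mon ω v x).coeff m = 0 := by
    unfold mon
    split_ifs with hc
    · rw [Polynomial.coeff_X_pow]
      split_ifs with hm
      · exfalso
        obtain ⟨q, hq⟩ := SimpleGraph.Reachable.exists_walk_length_eq_dist hc
        apply hx
        have h1 := (hW d ω v x hsub q).1 x q.end_mem_support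
        rw [hq, ← hm] at h1
        exact h1
      · rfl
    · exact Polynomial.coeff_zero m
  rw [h0, smul_zero]

end GLsM

theorem hGLs (hCoef : StCoef) (hCU : StCoefU) (hW : StWalkBox) (hBox : StBox) : StGLs := by
  intro d E p m
  induction m using Nat.strong_induction_on with
  | _ m ih =>
    intro v x hE hx
    have h1 := hCoef (Zd d) E p m m v x le_rfl
    rw [GLsM.GG_coeff_zero hW d E p m v x hE hx] at h1
    have h2 : ∑ ub ∈ drt E, ∑ j ∈ Finset.range m,
        (gE E p m v ub.1).coeff j * p * (GG E p ub.2 x).coeff (m - 1 - j) = 0 := by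
      refine Finset.sum_eq_zero fun ub hub => Finset.sum_eq_zero fun j hj => ?_
      have hjm : j < m := Finset.mem_range.1 hj
      have he : s(ub.1, ub.2) ∈ latE d := hE (mem_drt'.1 hub)
      have hnb : ub.2 ∈ nb ub.1 := ((hBox d).2.2.2.2.2.1 ub.1 ub.2).1 he
      by_cases hu : ub.1 - v ∈ bx d j
      · -- then `x - ub.2` is not in the box of radius `m - 1 - j`
        have hb : ub.2 - v ∈ bx d (j + 1) := by
          refine (hBox d).2.2.2.2.2.2.1 (ub.1 - v) (ub.2 - v) j hu ?_
          have h3 := ((hBox d).2.2.2.2.1 ub.1 ub.2 (-v)).1 hnb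
          rw [neg_add_eq_sub, neg_add_eq_sub] at h3
          exact h3
        have hxb : x - ub.2 ∉ bx d (m - 1 - j) := by
          intro hc
          apply hx
          rw [(hBox d).2.1] at hb hc ⊢
          intro i
          have h4 := hb i
          have h5 := hc i
          have h6 : (x - v) i = (x - ub.2) i + (ub.2 - v) i := by
            simp only [Pi.sub_apply]
            ring
          rw [h6]
          have h7 : ((m - 1 - j : ℕ) : ℤ) = (m : ℤ) - 1 - j := by omega
          rw [h7] at h5
          push_cast at h4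
          calc |(x - ub.2) i + (ub.2 - v) i| ≤ |(x - ub.2) i| + |(ub.2 - v) i| := abs_add_le _ _
            _ ≤ ((m : ℤ) - 1 - j) + (j + 1) := add_le_add h5 h4
            _ = m := by ring
        rw [GLsM.GG_coeff_zero hW d E p (m - 1 - j) ub.2 x hE hxb, mul_zero]
      · rw [hCU d E p m j v ub.1 hjm.le, ih j hjm v ub.1 hE hu, zero_mul, zero_mul]
    rw [h2, add_zero] at h1
    exact h1.symm

end Pool.CN
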